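import Pool.Agent.Lib.MP_aecbcf_co.Gen

/-!
# Discharging: a stable set of weight at least `5 n / 8`
-/

set_option autoImplicit false

namespace Pool.Agent.Lib.MP_aecbcf_co.AG

open Finset Pool.Agent.Results.MP_aecbcf_co.FourColourable Pool.Agent.Lib.MP_aecbcf_co.Heavy
open Pool.Agent.Lib.MP_aecbcf_co.Gen (nb priv_of_card)

section

variable {V : Type*} [Fintype V] [DecidableEq V] {G : SimpleGraph V} [DecidableRel G.Adj]

theorem mem_nb {S : Finset V} {v t : V} : t ∈ nb G S v ↔ t ∈ S ∧ G.Adj v t := by
  simp [nb]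

/-- the vertices of `S` which need small shares -/
def Needy (G : SimpleGraph V) [DecidableRel G.Adj] (S : Finset V) (s : V) : Prop :=
  (G.degree s = 4 ∧ (priv G S s).card = 1) ∨ (G.degree s = 5 ∧ (priv G S s).card = 3) ∨
    (G.degree s = 6 ∧ (priv G S s).card = 5)

/-- `v` has exactly the two neighbours `t` and a needy vertex in `S` -/
def End (G : SimpleGraph V) [DecidableRel G.Adj] (S : Finset V) (v t : V) : Prop :=
  v ∉ S ∧ G.Adj v t ∧ ∃ s ∈ S, s ≠ t ∧ G.Adj v s ∧ (∀ r ∈ S, G.Adj v r → r = s ∨ r = t) ∧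
    Needy G S s

open Classical in
/-- the share of `s` in the charge of `v` -/
noncomputable def psi (G : SimpleGraph V) [DecidableRel G.Adj] (S : Finset V) (v s : V) : ℤ :=
  if (nb G S v).card = 1 then 10 else if 3 ≤ (nb G S v).card then 4 else
    5 - (if Needy G S s then 1 else 0) + (if ∃ t ∈ nb G S v, t ≠ s ∧ Needy G S t then 1 else 0)

open Classical in
theorem psi_sum {S : Finset V} {v : V} (h : (nb G S v).Nonempty) :
    10 ≤ ∑ s ∈ nb G S v, psi G S v s := by
  have h0 := card_pos.2 h
  unfold psi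
  by_cases h1 : (nb G S v).card = 1
  · simp only [h1, if_true]
    rw [sum_const, h1]; norm_num
  · by_cases h3 : 3 ≤ (nb G S v).card
    · simp only [h1, h3, if_true, if_false]
      rw [sum_const, nsmul_eq_mul]
      have : (3 : ℤ) ≤ (nb G S v).card := by exact_mod_cast h3
      linarith
    · simp only [h1, h3, if_false]
      obtain ⟨a, b, hab, hN⟩ := card_eq_two.1 (by omega : (nb G S v).card = 2)
      have ha : (∃ t ∈ nb G S v, t ≠ a ∧ Needy G S t) ↔ Needy G S b := by
        rw [hN]
        simp only [mem_insert, mem_singleton]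
        constructor
        · rintro ⟨t, rfl | rfl, h1, h2⟩
          · exact absurd rfl h1
          · exact h2
        · intro h1
          exact ⟨b, Or.inr rfl, hab.symm, h1⟩
      have hb : (∃ t ∈ nb G S v, t ≠ b ∧ Needy G S t) ↔ Needy G S a := by
        rw [hN]
        simp only [mem_insert, mem_singleton]
        constructor
        · rintro ⟨t, rfl | rfl, h1, h2⟩
          · exact h2
          · exact absurd rfl h1
        · intro h1
          exact ⟨a, Or.inl rfl, hab, h1⟩
      have h4 : ∑ s ∈ nb G S v, ((5 : ℤ) - (if Needy G S s then 1 else 0) +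
          (if ∃ t ∈ nb G S v, t ≠ s ∧ Needy G S t then 1 else 0)) =
          (5 - (if Needy G S a then 1 else 0) +
            (if ∃ t ∈ nb G S v, t ≠ a ∧ Needy G S t then 1 else 0)) +
          (5 - (if Needy G S b then 1 else 0) +
            (if ∃ t ∈ nb G S v, t ≠ b ∧ Needy G S t then 1 else 0)) := by
        have h5 : ∀ f : V → ℤ, ∑ s ∈ nb G S v, f s = f a + f b := by
          intro f
          rw [hN, sum_pair hab]
        exact h5 _
      rw [h4, if_congr ha rfl rfl, if_congr hb rfl rfl]
      linarith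

theorem load_sum2 {S : Finset V} (hS : IsStable G S)
    (hdom : ∀ v, v ∉ S → (nb G S v).Nonempty) :
    10 * ((Fintype.card V : ℤ) - S.card) ≤
      ∑ s ∈ S, ∑ v ∈ G.neighborFinset s, psi G S v s := by
  have h1 : ∑ s ∈ S, ∑ v ∈ G.neighborFinset s, psi G S v s =
      ∑ v ∈ Sᶜ, ∑ s ∈ nb G S v, psi G S v s := by
    apply sum_comm'
    intro s v
    rw [SimpleGraph.mem_neighborFinset, nb, mem_filter, mem_compl]
    constructor
    · rintro ⟨h1, h2⟩
      exact ⟨⟨h1, h2.symm⟩, fun hv => hS s h1 v hv h2⟩
    · rintro ⟨⟨h1, h2⟩, -⟩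
      exact ⟨h1, h2.symm⟩
  rw [h1]
  have h2 : ∑ _v ∈ Sᶜ, (10 : ℤ) ≤ ∑ v ∈ Sᶜ, ∑ s ∈ nb G S v, psi G S v s :=
    sum_le_sum fun v hv => psi_sum (hdom v (mem_compl.1 hv))
  rw [sum_const, nsmul_eq_mul, card_compl, Nat.cast_sub (card_le_univ S)] at h2
  linarith

/-- the second neighbour of a vertex with two neighbours in `S` -/
theorem end_of {S : Finset V} (hS : IsStable G S) {s v : V} (hs : s ∈ S) (hv : G.Adj s v)
    (hc : (nb G S v).card = 2) (h : ∃ t ∈ nb G S v, t ≠ s ∧ Needy G S t) : End G S v s := by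
  obtain ⟨t, ht, hts, hnt⟩ := h
  have htS := mem_nb.1 ht
  have hvS : v ∉ S := fun h => hS s hs v h hv
  have hsN : s ∈ nb G S v := mem_nb.2 ⟨hs, hv.symm⟩
  have hN : nb G S v = {t, s} := by
    symm
    apply eq_of_subset_of_card_le
    · intro w hw
      simp only [mem_insert, mem_singleton] at hw
      rcases hw with rfl | rfl
      · exact ht
      · exact hsN
    · rw [hc, card_pair hts]
  refine ⟨hvS, hv.symm, t, htS.1, hts, htS.2, ?_, hnt⟩
  intro w hw hvw
  have : w ∈ nb G S v := mem_nb.2 ⟨hw, hvw⟩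
  rw [hN] at this
  simpa using this

open Classical in
theorem psi_le {S : Finset V} (hS : IsStable G S) {s v : V} (hs : s ∈ S) (hv : G.Adj s v) :
    psi G S v s ≤ 6 + (if v ∈ priv G S s then 4 else 0) := by
  by_cases h1 : (nb G S v).card = 1
  · rw [if_pos (priv_of_card hS hs hv h1)]
    unfold psi
    rw [if_pos h1]
    norm_num
  · have h2 : psi G S v s ≤ 6 := by
      unfold psi
      rw [if_neg h1]
      split_ifs <;> norm_num
    split_ifs <;> linarith

open Classical in
theorem psi_needy {S : Finset V} (hS : IsStable G S) {s v : V} (hs : s ∈ S) (hv : G.Adj s v)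
    (hn : Needy G S s) (hno : ¬ End G S v s) :
    psi G S v s ≤ 4 + (if v ∈ priv G S s then 6 else 0) := by
  by_cases h1 : (nb G S v).card = 1
  · rw [if_pos (priv_of_card hS hs hv h1)]
    unfold psi
    rw [if_pos h1]
    norm_num
  · have h0 : 0 < (nb G S v).card := card_pos.2 ⟨s, mem_nb.2 ⟨hs, hv.symm⟩⟩
    have h2 : psi G S v s ≤ 4 := by
      unfold psi
      rw [if_neg h1]
      by_cases h3 : 3 ≤ (nb G S v).card
      · rw [if_pos h3]
      · rw [if_neg h3, if_pos hn, if_neg (fun h => hno (end_of hS hs hv (by omega) h))]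
        norm_num
    split_ifs <;> linarith

open Classical in
theorem psi_four {S : Finset V} (hS : IsStable G S) {s v : V} (hs : s ∈ S) (hv : G.Adj s v)
    (hP : priv G S s = ∅) : psi G S v s ≤ 5 + (if End G S v s then 1 else 0) := by
  by_cases h1 : (nb G S v).card = 1
  · have h2 := priv_of_card hS hs hv h1
    rw [hP] at h2
    exact absurd h2 (notMem_empty _)
  · have h0 : 0 < (nb G S v).card := card_pos.2 ⟨s, mem_nb.2 ⟨hs, hv.symm⟩⟩
    unfold psi
    rw [if_neg h1]
    by_cases h3 : 3 ≤ (nb G S v).card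
    · rw [if_pos h3]
      split_ifs <;> norm_num
    · rw [if_neg h3]
      by_cases h4 : ∃ t ∈ nb G S v, t ≠ s ∧ Needy G S t
      · rw [if_pos h4, if_pos (end_of hS hs hv (by omega) h4)]
        split_ifs <;> norm_num
      · rw [if_neg h4]
        split_ifs <;> norm_num

/-- **The counting.** -/
theorem weight_ge2 {S : Finset V} (hS : IsStable G S) (hdeg : ∀ v, 4 ≤ G.degree v)
    (hdom : ∀ v, v ∉ S → (nb G S v).Nonempty)
    (hP4 : ∀ s ∈ S, G.degree s = 4 → (priv G S s).card ≤ 1)
    (hP5 : ∀ s ∈ S, G.degree s = 5 → (priv G S s).card ≤ 3)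
    (hP6 : ∀ s ∈ S, G.degree s = 6 → (priv G S s).card ≤ 5)
    (hA : ∀ t ∈ S, Needy G S t → ∀ v, ¬ End G S v t)
    (hB : ∀ t ∈ S, G.degree t = 4 → priv G S t = ∅ → ∀ v v', End G S v t → End G S v' t →
      v = v') :
    5 * (Fintype.card V : ℤ) ≤ 8 * wt G S := by
  classical
  have h1 := load_sum2 hS hdom
  have h2 : ∀ s ∈ S, 10 + ∑ v ∈ G.neighborFinset s, psi G S v s ≤
      16 * ((G.degree s : ℤ) - 2) := by
    intro s hs
    have hd := hdeg s
    have hPle : ((G.neighborFinset s ∩ priv G S s).card : ℤ) ≤ (priv G S s).card := by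
      exact_mod_cast card_le_card inter_subset_right
    by_cases hn : Needy G S s
    · have h3 : ∑ v ∈ G.neighborFinset s, psi G S v s ≤
          ∑ v ∈ G.neighborFinset s, (4 + (if v ∈ priv G S s then (6 : ℤ) else 0)) :=
        sum_le_sum fun v hv => psi_needy hS hs ((SimpleGraph.mem_neighborFinset _ _ _).1 hv) hn
          (hA s hs hn v)
      rw [sum_add_distrib, sum_const, sum_ite_mem, sum_const,
        SimpleGraph.card_neighborFinset_eq_degree, nsmul_eq_mul, nsmul_eq_mul] at h3
      rcases hn with ⟨h4, h5⟩ | ⟨h4, h5⟩ | ⟨h4, h5⟩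
      · rw [h5] at hPle
        rw [h4] at h3 ⊢
        push_cast at hPle h3 ⊢
        linarith
      · rw [h5] at hPle
        rw [h4] at h3 ⊢
        push_cast at hPle h3 ⊢
        linarith
      · rw [h5] at hPle
        rw [h4] at h3 ⊢
        push_cast at hPle h3 ⊢
        linarith
    · by_cases h4 : G.degree s = 4
      · have hP : priv G S s = ∅ := by
          rw [← card_eq_zero]
          have := hP4 s hs h4
          by_contra h5
          exact hn (Or.inl ⟨h4, by omega⟩)
        have h3 : ∑ v ∈ G.neighborFinset s, psi G S v s ≤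
            ∑ v ∈ G.neighborFinset s, (5 + (if End G S v s then (1 : ℤ) else 0)) :=
          sum_le_sum fun v hv => psi_four hS hs ((SimpleGraph.mem_neighborFinset _ _ _).1 hv) hP
        rw [sum_add_distrib, sum_const, ← sum_filter, sum_const,
          SimpleGraph.card_neighborFinset_eq_degree, nsmul_eq_mul, nsmul_eq_mul, h4] at h3
        have h5 : ((G.neighborFinset s).filter fun v => End G S v s).card ≤ 1 := by
          rw [card_le_one]
          intro v hv v' hv'
          exact hB s hs h4 hP v v' (mem_filter.1 hv).2 (mem_filter.1 hv').2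
        have h6 : (((G.neighborFinset s).filter fun v => End G S v s).card : ℤ) ≤ 1 := by
          exact_mod_cast h5
        rw [h4]
        push_cast at h3 ⊢
        linarith
      · have h3 : ∑ v ∈ G.neighborFinset s, psi G S v s ≤
            ∑ v ∈ G.neighborFinset s, (6 + (if v ∈ priv G S s then (4 : ℤ) else 0)) :=
          sum_le_sum fun v hv => psi_le hS hs ((SimpleGraph.mem_neighborFinset _ _ _).1 hv)
        rw [sum_add_distrib, sum_const, sum_ite_mem, sum_const,
          SimpleGraph.card_neighborFinset_eq_degree, nsmul_eq_mul, nsmul_eq_mul] at h3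
        have h5 : 42 + 4 * (priv G S s).card ≤ 10 * G.degree s := by
          have h7 := priv_card_le (G := G) S s
          by_cases h8 : G.degree s = 5
          · have h9 := hP5 s hs h8
            have h10 : (priv G S s).card ≠ 3 := fun h => hn (Or.inr (Or.inl ⟨h8, h⟩))
            omega
          · by_cases h9 : G.degree s = 6
            · have h10 := hP6 s hs h9
              have h11 : (priv G S s).card ≠ 5 := fun h => hn (Or.inr (Or.inr ⟨h9, h⟩))
              omega
            · omega
        have h6 : 42 + 4 * ((priv G S s).card : ℤ) ≤ 10 * G.degree s := by exact_mod_cast h5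
        linarith
  have h3 := sum_le_sum h2
  rw [sum_add_distrib, sum_const, nsmul_eq_mul, ← mul_sum] at h3
  unfold wt
  linarith

end

end Pool.Agent.Lib.MP_aecbcf_co.AG
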