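import Pool.Agent.Lib.MP_aecbcf_co.NeedyD
import Pool.Agent.Lib.MP_aecbcf_co.AG.Cnt

/-!
# The two lemmas on needy vertices, for the counting
-/

set_option autoImplicit false
set_option linter.unusedSectionVars false

namespace Pool.Agent.Lib.MP_aecbcf_co.AG.Brd

open Finset Pool.Agent.Results.MP_aecbcf_co.FourColourable Pool.Agent.Lib.MP_aecbcf_co.Heavy
open Pool.Agent.Lib.MP_aecbcf_co.Gen

variable {V : Type*} [Fintype V] [DecidableEq V] {G : SimpleGraph V} [DecidableRel G.Adj]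

theorem red_of (hG : ¬ HasBipartiteCut G) (hn : 7 ≤ Fintype.card V) (h1 : H1 G) (h2 : H2 G)
    (h3 : H3 G) (hdeg : ∀ v, 4 ≤ G.degree v) : Pool.Agent.Lib.MP_aecbcf_co.Needy.Red G where
  cut := hG
  h1 := by
    intro x y hxy hno
    by_contra hcon
    push Not at hcon
    obtain ⟨a, b, c, ha, hb, hc, hab, hac, hbc⟩ := two_lt_card_iff.1 hcon
    rw [mem_filter] at ha hb hc
    exact h1 x y a b c hxy hno hab hac hbc ha.2.1 hb.2.1 hc.2.1 ha.2.2 hb.2.2 hc.2.2
  h2 := by
    intro v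
    by_contra hcon
    push Not at hcon
    exact h2 v fun x y hx hy hxy => hcon x y hx hy hxy
  h3 := by
    intro Q hQ
    by_contra hcon
    push Not at hcon
    rw [SimpleGraph.isNClique_iff, SimpleGraph.isClique_iff] at hQ
    exact h3 Q hQ.2 (fun x hx y hy hxy => hQ.1 hx hy hxy) hcon
  h4 := hdeg
  T4 := by
    intro v hv
    obtain ⟨x, y, z, hx, hy, hz, exy, eyz, exz⟩ := triangle_nbhd hG (s := v) (by omega) (by omega)
    have hc3 : ({x, y, z} : Finset V).card = 3 :=
      card_eq_three.2 ⟨x, y, z, exy.ne, exz.ne, eyz.ne, rfl⟩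
    obtain ⟨w, hw, hw'⟩ := exists_mem_notMem_of_card_lt_card
      (show ({x, y, z} : Finset V).card < (G.neighborFinset v).card by
        rw [hc3, SimpleGraph.card_neighborFinset_eq_degree, hv]
        norm_num)
    rw [SimpleGraph.mem_neighborFinset] at hw
    have hw2 := hw'
    simp only [mem_insert, mem_singleton, not_or] at hw'
    have hN : ∀ u, G.Adj v u → u ≠ w → u = x ∨ u = y ∨ u = z := by
      intro u hu huw
      have h4 : insert w ({x, y, z} : Finset V) = G.neighborFinset v := by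
        apply eq_of_subset_of_card_le
        · intro t ht
          simp only [mem_insert, mem_singleton] at ht
          rw [SimpleGraph.mem_neighborFinset]
          rcases ht with rfl | rfl | rfl | rfl <;> assumption
        · rw [card_insert_of_notMem hw2, hc3, SimpleGraph.card_neighborFinset_eq_degree, hv]
      have h5 : u ∈ insert w ({x, y, z} : Finset V) := by
        rw [h4, SimpleGraph.mem_neighborFinset]; exact hu
      simp only [mem_insert, mem_singleton] at h5
      exact h5.resolve_left huw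
    have tri : ∀ a b, (a = x ∨ a = y ∨ a = z) → (b = x ∨ b = y ∨ b = z) → a ≠ b →
        G.Adj a b := by
      intro a b ha hb hab
      rcases ha with rfl | rfl | rfl <;> rcases hb with rfl | rfl | rfl <;>
        first
        | exact absurd rfl hab
        | assumption
        | (apply SimpleGraph.Adj.symm; assumption)
    have third : ∀ a b, (a = x ∨ a = y ∨ a = z) → (b = x ∨ b = y ∨ b = z) → a ≠ b →
        ∃ c, (c = x ∨ c = y ∨ c = z) ∧ c ≠ a ∧ c ≠ b := by
      intro a b ha hb hab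
      have h6 : ({a, b} : Finset V).card < ({x, y, z} : Finset V).card := by
        rw [hc3]
        exact lt_of_le_of_lt card_le_two (by norm_num)
      obtain ⟨c, hc, hc'⟩ := exists_mem_notMem_of_card_lt_card h6
      simp only [mem_insert, mem_singleton, not_or] at hc hc'
      exact ⟨c, hc, hc'.1, hc'.2⟩
    have adj : ∀ a, (a = x ∨ a = y ∨ a = z) → G.Adj v a := by
      intro a ha
      rcases ha with rfl | rfl | rfl <;> assumption
    refine ⟨w, hw, ?_, ?_⟩
    · intro u hu huw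
      have hu3 := hN u hu huw
      refine ⟨?_, fun t ht htw hut => tri u t hu3 (hN t ht htw) hut⟩
      by_contra hcon
      have hd := hdeg u
      have hu4 : G.degree u = 4 := by omega
      obtain ⟨b, hb, hub⟩ : ∃ b, (b = x ∨ b = y ∨ b = z) ∧ b ≠ u := by
        by_cases hux : x = u
        · exact ⟨y, Or.inr (Or.inl rfl), fun h => exy.ne (hux.trans h.symm)⟩
        · exact ⟨x, Or.inl rfl, hux⟩
      obtain ⟨c, hc, hcu, hcb⟩ := third u b hu3 hb (Ne.symm hub)
      exact tfour hG hn h1 h2 hv hu4 hu (Ne.symm hcb) (adj b hb) (adj c hc)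
        (tri u b hu3 hb (Ne.symm hub)) (tri u c hu3 hc (Ne.symm hcu))
    · intro a b ha hb haw hbw hwa hwb
      by_contra hab
      have ha3 := hN a ha haw
      have hb3 := hN b hb hbw
      obtain ⟨c, hc, hca, hcb⟩ := third a b ha3 hb3 hab
      have hwc : w ≠ c := by
        rintro rfl
        rcases hc with h | h | h
        · exact hw'.1 h
        · exact hw'.2.1 h
        · exact hw'.2.2 h
      exact kfour h1 h2 hv hw ha hb (adj c hc) hwa hwb hwc (tri a b ha3 hb3 hab)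
        (tri a c ha3 hc (Ne.symm hca)) (tri b c hb3 hc (Ne.symm hcb))

theorem sh_of {S : Finset V} {v t s : V} (ht : t ∈ S) (hv : v ∉ S) (hvt : G.Adj v t)
    (hs : s ∈ S) (hst : s ≠ t) (hvs : G.Adj v s)
    (hall : ∀ r ∈ S, G.Adj v r → r = s ∨ r = t) :
    Pool.Agent.Lib.MP_aecbcf_co.Needy.Sh G S v s t :=
  ⟨hv, hs, ht, hst, hvs, hvt, hall⟩

theorem lemA (hG : ¬ HasBipartiteCut G) (hn : 9 ≤ Fintype.card V) (h1 : H1 G) (h2 : H2 G)
    (h3 : H3 G) (hdeg : ∀ v, 4 ≤ G.degree v) {S : Finset V}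
    (hS : Pool.Agent.Lib.MP_aecbcf_co.Needy.Best G S) :
    ∀ t ∈ S, AG.Needy G S t → ∀ v, ¬ AG.End G S v t := by
  rintro t ht hN v ⟨hv, hvt, s, hs, hst, hvs, hall, hNs⟩
  exact Pool.Agent.Lib.MP_aecbcf_co.Needy.lemA' (red_of hG (by omega) h1 h2 h3 hdeg) hS
    (sh_of ht hv hvt hs hst hvs hall) hNs hN

theorem lemB (hG : ¬ HasBipartiteCut G) (hn : 9 ≤ Fintype.card V) (h1 : H1 G) (h2 : H2 G)
    (h3 : H3 G) (hdeg : ∀ v, 4 ≤ G.degree v) {S : Finset V}
    (hS : Pool.Agent.Lib.MP_aecbcf_co.Needy.Best G S) :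
    ∀ t ∈ S, G.degree t = 4 → priv G S t = ∅ → ∀ v v', AG.End G S v t → AG.End G S v' t →
      v = v' := by
  rintro t ht hd _ v v' ⟨hv, hvt, s, hs, hst, hvs, hall, hNs⟩ ⟨hv', hvt', s', hs', hst', hvs',
    hall', hNs'⟩
  have hR := red_of hG (by omega) h1 h2 h3 hdeg
  obtain ⟨w, hw, hw2, _⟩ := hR.T4 t hd
  have e1 := Pool.Agent.Lib.MP_aecbcf_co.Needy.lemB' hR hS (sh_of ht hv hvt hs hst hvs hall)
    hNs hd hw2 hw
  have e2 := Pool.Agent.Lib.MP_aecbcf_co.Needy.lemB' hR hS
    (sh_of ht hv' hvt' hs' hst' hvs' hall') hNs' hd hw2 hw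
  rw [e1, e2]

theorem irr2_large (hG : ¬ HasBipartiteCut G) (hn : 9 ≤ Fintype.card V) (h1 : H1 G) (h2 : H2 G)
    (h3 : H3 G) : 21 * (Fintype.card V : ℤ) - 24 ≤ 8 * G.edgeFinset.card := by
  have hdeg : ∀ v, 4 ≤ G.degree v := four_le hG (by omega) h2
  have hR := red_of hG (by omega) h1 h2 h3 hdeg
  obtain ⟨S, hB⟩ := Pool.Agent.Lib.MP_aecbcf_co.Needy.exists_best (G := G)
  have h := weight_ge2 hB.st hdeg
    (fun v hv => Pool.Agent.Lib.MP_aecbcf_co.Needy.dom hR hB hv)
    (fun s hs hd => Pool.Agent.Lib.MP_aecbcf_co.Needy.priv4 hR hB hs hd)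
    (fun s hs hd => Pool.Agent.Lib.MP_aecbcf_co.Needy.priv5 hR hB hs hd)
    (fun s hs hd => Pool.Agent.Lib.MP_aecbcf_co.Needy.priv6 hR hB hs hd)
    (lemA hG hn h1 h2 h3 hdeg hB) (lemB hG hn h1 h2 h3 hdeg hB)
  have e4 := edges_ge hG hB.st
  unfold wt at h
  linarith

end Pool.Agent.Lib.MP_aecbcf_co.AG.Brd
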