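import Pool.Agent.Lib.MP_aecbcf_co.AG.Brd

/-!
# The bound `8 e ≥ 21 n - 24` for irreducible graphs
-/

set_option autoImplicit false

namespace Pool.Agent.Lib.MP_aecbcf_co.AG

open Finset Pool.Agent.Results.MP_aecbcf_co.FourColourable Pool.Agent.Lib.MP_aecbcf_co.Heavy
open Pool.Agent.Lib.MP_aecbcf_co.Gen

section

variable {V : Type*} [Fintype V] [DecidableEq V] {G : SimpleGraph V} [DecidableRel G.Adj]

/-- the bound for graphs without reductions -/
theorem irr2 (hG : ¬ HasBipartiteCut G) (hn : 5 ≤ Fintype.card V) (h1 : H1 G) (h2 : H2 G)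
    (h3 : 9 ≤ Fintype.card V → H3 G) :
    3 * (Fintype.card V : ℤ) ≤ G.edgeFinset.card + 6 ∨
      21 * (Fintype.card V : ℤ) ≤ 8 * G.edgeFinset.card + 24 := by
  by_cases hn9 : 9 ≤ Fintype.card V
  · have := Brd.irr2_large hG hn9 h1 h2 (h3 hn9)
    right
    linarith
  · left
    rcases irr hG hn h1 h2 h3 with h | h
    · exact h
    · omega

end

end Pool.Agent.Lib.MP_aecbcf_co.AG
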