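import Pool.Agent.Lib.MP_aecbcf_co.Ind
import Pool.Agent.Lib.MP_aecbcf_co.AG.Irr2

/-! The induction: every graph with at least four vertices and without a bipartite cut has at least
`3 n - 6` or at least `(21 n - 24) / 8` edges. -/

set_option autoImplicit false

namespace Pool.Agent.Lib.MP_aecbcf_co.AG

open Finset Pool.Agent.Lib.BipCut Pool.Agent.Results.MP_aecbcf_co.FourColourable
open Pool.Agent.Lib.MP_aecbcf_co.Red Pool.Agent.Lib.MP_aecbcf_co.Gen Pool.Agent.Lib.MP_aecbcf_co.Ind

variable {α : Type*} [DecidableEq α]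

theorem bound2 : ∀ (n : ℕ) (r : α → α → Prop) [DecidableRel r], Sy r → (∀ x, ¬ r x x) →
    ∀ A : Finset α, A.card = n → 4 ≤ n → ¬ Cut r A →
      6 * n ≤ m2 r A + 12 ∨ 21 * n ≤ 4 * m2 r A + 24 := by
  intro n
  induction n using Nat.strong_induction_on with
  | _ n IH =>
  intro r _ hs hi A hA hn hcut
  have hG : ¬ HasBipartiteCut (toG r hs hi A) := fun h => hcut (toG_nocut r hs hi A h)
  have hcard : Fintype.card {x // x ∈ A} = n := by rw [Fintype.card_coe, hA]
  have hedge := toG_edges r hs hi A
  by_contra hcon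
  push Not at hcon
  by_cases hn4 : n = 4
  · have h := base hG (by rw [hcard, hn4])
    rw [hcard] at h
    omega
  have hn5 : 5 ≤ n := by omega
  have hH1 : H1 (toG r hs hi A) := by
    intro u w a b c huw hno hab hac hbc hua hub huc hwa hwb hwc
    have huw' : u.1 ≠ w.1 := fun h => huw (Subtype.ext h)
    have hno' : ¬ r u.1 w.1 := hno
    have h := IH (n - 1) (by omega) (con r u.1 w.1) (con_symm hs _ _) (con_irrefl _ _)
      (A.erase w.1) (by rw [card_erase_of_mem w.2, hA]) (by omega)
      (fun hc => hcut (cut_con hs hi u.2 w.2 huw' hno' hc))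
    have h2 := m2_con_eq hs hi u.2 w.2 huw' hno'
    have h3 : 3 ≤ (A.filter fun x => r u.1 x ∧ r w.1 x).card := by
      have h4 : ({a.1, b.1, c.1} : Finset α) ⊆ A.filter fun x => r u.1 x ∧ r w.1 x := by
        intro x hx
        simp only [mem_insert, mem_singleton] at hx
        rcases hx with rfl | rfl | rfl
        · exact mem_filter.2 ⟨a.2, hua, hwa⟩
        · exact mem_filter.2 ⟨b.2, hub, hwb⟩
        · exact mem_filter.2 ⟨c.2, huc, hwc⟩
      have h5 := card_le_card h4
      rw [card_insert_of_notMem, card_insert_of_notMem, card_singleton] at h5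
      · exact h5
      · rw [mem_singleton]
        exact fun h => hbc (Subtype.ext h)
      · simp only [mem_insert, mem_singleton, not_or]
        exact ⟨fun h => hab (Subtype.ext h), fun h => hac (Subtype.ext h)⟩
    omega
  have hH2 : H2 (toG r hs hi A) := by
    intro v hv
    have h := IH (n - 1) (by omega) r hs hi
      (A.erase v.1) (by rw [card_erase_of_mem v.2, hA]) (by omega)
      (fun hc => hcut (cut_simplicial hs v.2 (by
        intro x hx y hy hvx hvy hxy
        exact hv ⟨x, hx⟩ ⟨y, hy⟩ hvx hvy (fun e => hxy (congrArg Subtype.val e))) hc))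
    have h2 := m2_insert (r := r) hs hi (notMem_erase v.1 A)
    rw [insert_erase v.2] at h2
    have h3 : 3 ≤ (toG r hs hi A).degree v := three_le hG (by rw [hcard]; omega) v
    rw [toG_degree] at h3
    have h4 : ((A.erase v.1).filter fun x => r v.1 x) = A.filter fun x => r v.1 x := by
      ext x
      rw [mem_filter, mem_filter, mem_erase]
      constructor
      · rintro ⟨⟨-, h1⟩, h2⟩
        exact ⟨h1, h2⟩
      · rintro ⟨h1, h2⟩
        refine ⟨⟨?_, h1⟩, h2⟩
        rintro rfl
        exact hi _ h2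
    rw [h4] at h2
    omega
  have hH3 : 9 ≤ Fintype.card {x // x ∈ A} → H3 (toG r hs hi A) := by
    intro h9 Q hQ hcl hdeg
    rw [hcard] at h9
    obtain ⟨Q', hQ'⟩ : ∃ Q' : Finset α, Q' = Q.image Subtype.val := ⟨_, rfl⟩
    have hQ'c : Q'.card = 5 := by
      rw [hQ', card_image_of_injective _ Subtype.val_injective, hQ]
    have hmem : ∀ x, x ∈ Q' ↔ ∃ h : x ∈ A, (⟨x, h⟩ : {x // x ∈ A}) ∈ Q := by
      intro x
      rw [hQ', mem_image]
      constructor
      · rintro ⟨y, hy, rfl⟩
        exact ⟨y.2, hy⟩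
      · rintro ⟨h, hx⟩
        exact ⟨⟨x, h⟩, hx, rfl⟩
    have hQA : Q' ⊆ A := fun x hx => ((hmem x).1 hx).1
    have hcl' : ∀ x ∈ Q', ∀ y ∈ Q', x ≠ y → r x y := by
      intro x hx y hy hxy
      obtain ⟨hxA, hxQ⟩ := (hmem x).1 hx
      obtain ⟨hyA, hyQ⟩ := (hmem y).1 hy
      exact hcl _ hxQ _ hyQ (fun e => hxy (congrArg Subtype.val e))
    have hdeg' : ∀ x ∈ Q', (A.filter fun y => r x y).card = 5 := by
      intro x hx
      obtain ⟨hxA, hxQ⟩ := (hmem x).1 hx
      have := hdeg _ hxQ
      rw [toG_degree] at this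
      exact this
    have hone : ∀ q ∈ Q', ∀ x ∈ A \ Q', ∀ y ∈ A \ Q', r q x → r q y → x = y := by
      intro q hq x hx y hy hqx hqy
      by_contra hxy
      rw [mem_sdiff] at hx hy
      have h1 : insert x (insert y (Q'.erase q)) ⊆ A.filter fun y => r q y := by
        intro z hz
        rw [mem_insert, mem_insert] at hz
        rcases hz with rfl | rfl | hz
        · exact mem_filter.2 ⟨hx.1, hqx⟩
        · exact mem_filter.2 ⟨hy.1, hqy⟩
        · rw [mem_erase] at hz
          exact mem_filter.2 ⟨hQA hz.2, hcl' q hq z hz.2 (Ne.symm hz.1)⟩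
      have h2 := card_le_card h1
      rw [card_insert_of_notMem, card_insert_of_notMem, card_erase_of_mem hq, hQ'c,
        hdeg' q hq] at h2
      · omega
      · exact fun h => hy.2 (mem_of_mem_erase h)
      · rw [mem_insert]
        rintro (h | h)
        · exact hxy h
        · exact hx.2 (mem_of_mem_erase h)
    have h := IH (n - 5) (by omega) r hs hi (A \ Q') (by
        rw [card_sdiff_of_subset hQA, hA, hQ'c]) (by omega)
      (fun hc => hcut (cut_pendant hs hi hQA hQ'c.le hone hc))
    have h2 := m2_sdiff (r := r) hs hQA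
    rw [sum_congr rfl hdeg', sum_const, hQ'c, smul_eq_mul] at h2
    have h3 : ∑ _q ∈ Q', 1 ≤ ∑ q ∈ Q', ((A \ Q').filter fun y => r q y).card := by
      apply sum_le_sum
      intro q hq
      have h4 : (A.filter fun y => r q y) ⊆
          ((A \ Q').filter fun y => r q y) ∪ (Q'.erase q) := by
        intro z hz
        rw [mem_filter] at hz
        rw [mem_union, mem_filter, mem_sdiff, mem_erase]
        by_cases hzQ : z ∈ Q'
        · right
          refine ⟨?_, hzQ⟩
          rintro rfl
          exact hi _ hz.2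
        · exact Or.inl ⟨⟨hz.1, hzQ⟩, hz.2⟩
      have h5 := (card_le_card h4).trans (card_union_le _ _)
      rw [hdeg' q hq, card_erase_of_mem hq, hQ'c] at h5
      omega
    rw [sum_const, hQ'c, smul_eq_mul] at h3
    omega
  have h := irr2 hG (by rw [hcard]; exact hn5) hH1 hH2 hH3
  rw [hcard] at h
  omega

end Pool.Agent.Lib.MP_aecbcf_co.AG
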